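import Pool.Agent.H75.OM.TD
import Pool.Agent.H78.XQ.EX3

/-!
# EX4: finitely many indices and requirements
-/

set_option autoImplicit false

namespace Pool.Agent.H62.OMN

open Finset Pool.Agent.H6.NB Pool.Agent.H70.OQ Pool.Agent.H70.EH Pool.Agent.H70.EI
open Pool.Agent.H78.XQ Pool.Agent.H75.OM Pool.Agent.H78.XQ.EX3

/-- A numbering compatible with a function. -/
theorem ord_exists (I : Type) [Fintype I] (k : I → ℕ) :
    ∃ ord : I → ℕ, Function.Injective ord ∧ ∀ i j, ord i ≤ ord j → k i ≤ k j := by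
  classical
  let M := Fintype.card I
  let e := Fintype.equivFin I
  have hidx : ∀ i : I, (e i).1 < M + 1 := fun i => Nat.lt_succ_of_lt (e i).2
  refine ⟨fun i => k i * (M + 1) + (e i).1, ?_, ?_⟩
  · intro i j hij
    have e1 : (k i * (M + 1) + (e i).1) % (M + 1) = (e i).1 := by
      rw [Nat.mul_comm, Nat.mul_add_mod, Nat.mod_eq_of_lt (hidx i)]
    have e2 : (k j * (M + 1) + (e j).1) % (M + 1) = (e j).1 := by
      rw [Nat.mul_comm, Nat.mul_add_mod, Nat.mod_eq_of_lt (hidx j)]
    have e3 : (k i * (M + 1) + (e i).1) = (k j * (M + 1) + (e j).1) := hij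
    rw [e3, e2] at e1
    exact (e.injective (Fin.ext e1)).symm
  · intro i j hij
    have hij' : k i * (M + 1) + (e i).1 ≤ k j * (M + 1) + (e j).1 := hij
    by_contra hlt
    have hlt' : k j + 1 ≤ k i := by omega
    have e1 := Nat.mul_le_mul_right (M + 1) hlt'
    have e2 := hidx j
    rw [Nat.add_mul, Nat.one_mul] at e1
    omega

/-- The indices, the requirements, and the default. -/
abbrev JJ (E : Finset Ix) (F : Finset ℕ) : Type := {a // a ∈ E} ⊕ ({a // a ∈ F} ⊕ Unit)

section

variable (V : ℕ → ATM) (W : ℕ → Hm) (ρ : ℕ → ℕ) (E : Finset Ix) (F : Finset ℕ) (Λ : ℕ)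

/-- The coordinates. -/
def TT : JJ E F → Type
  | .inl i => Cx V W ρ i.1
  | .inr (.inl _) => Unit
  | .inr (.inr _) => St Λ → Bool

/-- The coordinates have finitely many values. -/
@[instance_reducible] noncomputable def fTT : (j : JJ E F) → Fintype (TT V W ρ E F Λ j)
  | .inl i => inferInstanceAs (Fintype (Cx V W ρ i.1))
  | .inr (.inl _) => inferInstanceAs (Fintype Unit)
  | .inr (.inr _) => inferInstanceAs (Fintype (St Λ → Bool))

noncomputable instance (j : JJ E F) : Fintype (TT V W ρ E F Λ j) := fTT V W ρ E F Λ j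

variable {V W ρ E F Λ}

/-- The coordinates of the indices. -/
def PE (P : ∀ j, TT V W ρ E F Λ j) : ∀ i : {a // a ∈ E}, Cx V W ρ i.1 := fun i => P (.inl i)

/-- The default. -/
def gP (P : ∀ j, TT V W ρ E F Λ j) : St Λ → Bool := P (.inr (.inr ()))

theorem PE_upd (P : ∀ j, TT V W ρ E F Λ j) (i₀ : {a // a ∈ E}) (c : TT V W ρ E F Λ (.inl i₀)) :
    PE (Function.update P (.inl i₀) c) = Function.update (PE P) i₀ c := by
  funext i
  by_cases h : i = i₀
  · subst h
    rw [Function.update_self]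
    unfold PE
    rw [Function.update_self]
  · rw [Function.update_of_ne h]
    unfold PE
    rw [Function.update_of_ne (fun e => h (Sum.inl.inj e))]

theorem gP_upd (P : ∀ j, TT V W ρ E F Λ j) (i₀ : {a // a ∈ E}) (c : TT V W ρ E F Λ (.inl i₀)) :
    gP (Function.update P (.inl i₀) c) = gP P := by
  unfold gP
  rw [Function.update_of_ne (by simp)]

/-- A configuration from its parts. -/
def mk (Q : ∀ i : {a // a ∈ E}, Cx V W ρ i.1) (g : St Λ → Bool) : ∀ j, TT V W ρ E F Λ j
  | .inl i => Q i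
  | .inr (.inl _) => ()
  | .inr (.inr _) => g

/-- A sum over configurations. -/
theorem sum_split (w : ∀ j : JJ E F, TT V W ρ E F Λ j → ℝ)
    (G : (∀ i : {a // a ∈ E}, Cx V W ρ i.1) → (St Λ → Bool) → ℝ) :
    ∑ P : (∀ j, TT V W ρ E F Λ j), (∏ j, w j (P j)) * G (PE P) (gP P) =
      (∏ a : {a // a ∈ F}, w (.inr (.inl a)) ()) *
        ∑ Q : (∀ i : {a // a ∈ E}, Cx V W ρ i.1), (∏ i, w (.inl i) (Q i)) *
          ∑ g : St Λ → Bool, w (.inr (.inr ())) g * G Q g := by
  have h1 : ∑ P : (∀ j, TT V W ρ E F Λ j), (∏ j, w j (P j)) * G (PE P) (gP P) =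
      ∑ a : (∀ i : {a // a ∈ E}, Cx V W ρ i.1) × (St Λ → Bool),
        (∏ j, w j (mk (F := F) a.1 a.2 j)) * G a.1 a.2 := by
    refine Fintype.sum_equiv ⟨fun P => (PE P, gP P), fun a => mk a.1 a.2, ?_, ?_⟩ _ _ ?_
    · intro P
      funext j
      rcases j with i | a | u
      · rfl
      · rfl
      · rfl
    · intro a
      rfl
    · intro P
      have e : mk (F := F) (PE P) (gP P) = P := by
        funext j
        rcases j with i | a | u
        · rfl
        · rfl
        · rfl
      change _ = (∏ j, w j (mk (F := F) (PE P) (gP P) j)) * G (PE P) (gP P)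
      rw [e]
  rw [h1, Fintype.sum_prod_type, Finset.mul_sum]
  refine Finset.sum_congr rfl fun Q _ => ?_
  rw [Finset.mul_sum, Finset.mul_sum]
  refine Finset.sum_congr rfl fun g _ => ?_
  rw [Fintype.prod_sum_type, Fintype.prod_sum_type]
  have e1 : ∏ x : Unit, w (.inr (.inr x)) (mk (F := F) Q g (.inr (.inr x))) =
      w (.inr (.inr ())) g := by
    rw [Fintype.prod_unique]
    rfl
  change (∏ i, w (.inl i) (Q i)) * ((∏ a : {a // a ∈ F}, w (.inr (.inl a)) ()) *
    ∏ x : Unit, w (.inr (.inr x)) (mk (F := F) Q g (.inr (.inr x)))) * G Q g = _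
  rw [e1]
  ring

variable (V W ρ E F Λ)

/-- The uniform weights. -/
noncomputable def w0 : (j : JJ E F) → TT V W ρ E F Λ j → ℝ
  | .inl i => fun c => wg0 V W ρ i.1 c
  | .inr (.inl _) => fun _ => 1
  | .inr (.inr _) => fun _ => 1 / 2 ^ Fintype.card (St Λ)

/-- The weights with the answer `b`. -/
noncomputable def wx (b : Bool) : (j : JJ E F) → TT V W ρ E F Λ j → ℝ
  | .inl i => fun c => wgX V W ρ b i.1 c
  | .inr (.inl _) => fun _ => if b then 1 else 0
  | .inr (.inr _) => fun _ => 1 / 2 ^ Fintype.card (St Λ)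

theorem w0_nonneg (h : T_MAS) (j : JJ E F) (c : TT V W ρ E F Λ j) : 0 ≤ w0 V W ρ E F Λ j c := by
  rcases j with i | a | u
  · exact wg0_nonneg V W ρ h i.1 c
  · exact zero_le_one
  · change (0 : ℝ) ≤ 1 / 2 ^ Fintype.card (St Λ)
    positivity

theorem wx_nonneg (h : T_MAS) (b : Bool) (j : JJ E F) (c : TT V W ρ E F Λ j) :
    0 ≤ wx V W ρ E F Λ b j c := by
  rcases j with i | a | u
  · exact wgX_nonneg V W ρ h b i.1 c
  · change (0 : ℝ) ≤ if b then 1 else 0
    split_ifs
    · exact zero_le_one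
    · exact le_rfl
  · change (0 : ℝ) ≤ 1 / 2 ^ Fintype.card (St Λ)
    positivity

theorem sum_def : ∑ _g : St Λ → Bool, (1 : ℝ) / 2 ^ Fintype.card (St Λ) = 1 := by
  rw [Finset.sum_const, Finset.card_univ, nsmul_eq_mul, Fintype.card_fun, Fintype.card_bool]
  push_cast
  have : (2 : ℝ) ^ Fintype.card (St Λ) ≠ 0 := by positivity
  field_simp

theorem w0_sum (h : T_MAS) (j : JJ E F) : ∑ c, w0 V W ρ E F Λ j c = 1 := by
  rcases j with i | a | u
  · exact wg0_sum V W ρ h i.1
  · change ∑ _c : Unit, (1 : ℝ) = 1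
    simp
  · exact sum_def Λ

theorem wx_sum (h : T_MAS) (b : Bool) (j : JJ E F) : ∑ c, wx V W ρ E F Λ b j c ≤ 1 := by
  rcases j with i | a | u
  · exact wgX_sum V W ρ h b i.1
  · change ∑ _c : Unit, (if b then (1 : ℝ) else 0) ≤ 1
    cases b <;> simp
  · exact (sum_def Λ).le

open Classical in
/-- The questions. -/
noncomputable def ff (R : ℕ → Rq)
    (O : (∀ i : {a // a ∈ E}, Cx V W ρ i.1) → (List Bool → Bool) → List Bool → Bool)
    (P : ∀ j, TT V W ρ E F Λ j) : JJ E F → Bool
  | .inl i => decide (ansr V W ρ (O (PE P) (ex Λ (gP P))) i.1)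
  | .inr (.inl a) => decide ((R a.1).ok (O (PE P) (ex Λ (gP P))))
  | .inr (.inr _) => true

/-- The size parameters. -/
def kk (R : ℕ → Rq) : JJ E F → ℕ
  | .inl i => key V ρ i.1
  | .inr (.inl a) => (R a.1).σ
  | .inr (.inr _) => 0

/-- The absolute error of an index. -/
noncomputable def ta2 : Ix → ℝ
  | .inl p => (1 / 8) ^ key V ρ (.inl p) / (4 * 2 ^ (2 * 2 ^ key V ρ (.inl p)))
  | .inr _ => 0

/-- The relative errors. -/
noncomputable def eps : JJ E F → ℝ
  | .inl i => ep V ρ i.1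
  | .inr _ => 0

/-- The absolute errors. -/
noncomputable def taus (R : ℕ → Rq) : JJ E F → ℝ
  | .inl i => ta2 V ρ i.1
  | .inr (.inl a) => 1 / 2 ^ (2 * (R a.1).s)
  | .inr (.inr _) => 0

/-- The blocks and the default. -/
def AA : JJ E F → Prop
  | .inl i => ∃ p, i.1 = .inl p
  | .inr (.inl _) => False
  | .inr (.inr _) => True

/-- The requirements. -/
def CC : JJ E F → Prop
  | .inl _ => False
  | .inr (.inl _) => True
  | .inr (.inr _) => False

theorem eps_nonneg (j : JJ E F) : 0 ≤ eps V ρ E F j := by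
  rcases j with i | a
  · exact ep_nonneg V ρ i.1
  · exact le_rfl

theorem ta2_nonneg (i : Ix) : 0 ≤ ta2 V ρ i := by
  rcases i with p | a
  · unfold ta2; positivity
  · exact le_rfl

theorem taus_nonneg (R : ℕ → Rq) (j : JJ E F) : 0 ≤ taus V ρ E F R j := by
  rcases j with i | a | u
  · exact ta2_nonneg V ρ i.1
  · change (0 : ℝ) ≤ 1 / 2 ^ (2 * (R a.1).s)
    positivity
  · exact le_rfl

variable {V W ρ E F Λ}

theorem key_pos (i : Ix) (hρ : Rho W ρ) : 20 ≤ key V ρ i := by
  rcases i with p | a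
  · simp only [Pool.Agent.H70.EI.key, scale]
    omega
  · have := hρ.small a
    simp only [Pool.Agent.H70.EI.key]
    omega

open Classical in
/-- The hypothesis on the blocks and on the default. -/
theorem hypA {e s₀ : ℕ → ℕ} {R : ℕ → Rq} (h2 : T_ASY) (hS : Sep e s₀ W ρ R)
    {O : (∀ i : {a // a ∈ E}, Cx V W ρ i.1) → (List Bool → Bool) → List Bool → Bool}
    (hO : IsY V W ρ E O) (ord : JJ E F → ℕ)
    (hk : ∀ i j, ord i ≤ ord j → kk V ρ E F R i ≤ kk V ρ E F R j) (j : JJ E F) (hA : AA E F j)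
    (κ : JJ E F → Bool) (P : ∀ j, TT V W ρ E F Λ j) :
    (1 - eps V ρ E F j) * ∑ p, w0 V W ρ E F Λ j p *
      (if ∀ i, ord i ≤ ord j → ff V W ρ E F Λ R O (Function.update P j p) i = κ i
        then 1 else 0) - taus V ρ E F R j ≤
    ∑ p, wx V W ρ E F Λ (κ j) j p *
      (if ∀ i, ord i ≤ ord j → ff V W ρ E F Λ R O (Function.update P j p) i = κ i
        then 1 else 0) := by
  rcases j with ⟨i, hi⟩ | a | u
  · obtain ⟨p, hp⟩ := hA
    obtain rfl : i = .inl p := hp
    have hd : ord (.inr (.inr ())) ≤ ord (.inl ⟨.inl p, hi⟩) := by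
      by_contra hlt
      have e1 := hk _ _ (le_of_not_ge hlt)
      have e2 : 20 ≤ key V ρ (.inl p) := key_pos (.inl p) hS.rho
      have e3 : key V ρ (.inl p) ≤ 0 := e1
      omega
    cases hκ : κ (.inr (.inr ())) with
    | false =>
      have hno : ∀ c : TT V W ρ E F Λ (.inl ⟨.inl p, hi⟩),
          ¬ ∀ i, ord i ≤ ord (.inl ⟨.inl p, hi⟩) →
            ff V W ρ E F Λ R O (Function.update P (.inl ⟨.inl p, hi⟩) c) i = κ i := by
        intro c hall
        have e1 := hall (.inr (.inr ())) hd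
        rw [hκ] at e1
        exact Bool.noConfusion e1
      rw [Finset.sum_eq_zero fun c _ => by rw [if_neg (hno c), mul_zero],
        Finset.sum_eq_zero fun c _ => by rw [if_neg (hno c), mul_zero]]
      have := taus_nonneg V ρ E F R (.inl ⟨.inl p, hi⟩)
      linarith
    | true =>
      let J : Finset {a // a ∈ E} := univ.filter fun i => ord (.inl i) ≤ ord (.inl ⟨.inl p, hi⟩)
      let J' : Finset ℕ := F.filter fun a => ∃ h : a ∈ F,
        ord (.inr (.inl ⟨a, h⟩)) ≤ ord (.inl ⟨.inl p, hi⟩)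
      let κ' : ℕ → Bool := fun a => if h : a ∈ F then κ (.inr (.inl ⟨a, h⟩)) else false
      have hpat : ∀ c : TT V W ρ E F Λ (.inl ⟨.inl p, hi⟩),
          (∀ i, ord i ≤ ord (.inl ⟨.inl p, hi⟩) →
            ff V W ρ E F Λ R O (Function.update P (.inl ⟨.inl p, hi⟩) c) i = κ i) ↔
          ((∀ i ∈ J, decide (ansr V W ρ (O (Function.update (PE P) ⟨.inl p, hi⟩ c)
            (ex Λ (gP P))) i.1) = κ (.inl i)) ∧
          (∀ a ∈ J', decide ((R a).ok (O (Function.update (PE P) ⟨.inl p, hi⟩ c)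
            (ex Λ (gP P)))) = κ' a)) := by
        intro c
        have e1 := PE_upd P ⟨.inl p, hi⟩ c
        have e2 := gP_upd P ⟨.inl p, hi⟩ c
        constructor
        · intro hall
          refine ⟨fun i hi' => ?_, fun a ha => ?_⟩
          · have := hall (.inl i) (Finset.mem_filter.1 hi').2
            rw [← this]
            unfold ff
            rw [e1, e2]
          · obtain ⟨haF, h, hle⟩ := Finset.mem_filter.1 ha
            have := hall (.inr (.inl ⟨a, h⟩)) hle
            simp only [κ']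
            rw [dif_pos h, ← this]
            unfold ff
            rw [e1, e2]
        · rintro ⟨hJ, hJ'⟩ i hle
          rcases i with i | a | u
          · rw [← hJ i (Finset.mem_filter.2 ⟨mem_univ _, hle⟩)]
            unfold ff
            rw [e1, e2]
          · have := hJ' a.1 (Finset.mem_filter.2 ⟨a.2, a.2, hle⟩)
            simp only [κ'] at this
            rw [dif_pos a.2] at this
            rw [← this]
            unfold ff
            rw [e1, e2]
          · exact hκ.symm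
      have hmain := h2 e s₀ V W ρ R hS E O hO (ex Λ (gP P)) (PE P) p hi J
        (fun i => κ (.inl i)) J' κ' (κ (.inl ⟨.inl p, hi⟩))
        (fun i hi' => hk _ _ (Finset.mem_filter.1 hi').2)
        (fun a ha => by
          obtain ⟨haF, h, hle⟩ := Finset.mem_filter.1 ha
          exact hk _ _ hle)
      have e1 : ∀ c : TT V W ρ E F Λ (.inl ⟨.inl p, hi⟩),
          (if ∀ i, ord i ≤ ord (.inl ⟨.inl p, hi⟩) →
            ff V W ρ E F Λ R O (Function.update P (.inl ⟨.inl p, hi⟩) c) i = κ i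
            then (1 : ℝ) else 0) =
          (if (∀ i ∈ J, decide (ansr V W ρ (O (Function.update (PE P) ⟨.inl p, hi⟩ c)
            (ex Λ (gP P))) i.1) = κ (.inl i)) ∧
          (∀ a ∈ J', decide ((R a).ok (O (Function.update (PE P) ⟨.inl p, hi⟩ c)
            (ex Λ (gP P)))) = κ' a) then 1 else 0) := by
        intro c
        by_cases hc : ∀ i, ord i ≤ ord (.inl ⟨.inl p, hi⟩) →
            ff V W ρ E F Λ R O (Function.update P (.inl ⟨.inl p, hi⟩) c) i = κ i
        · rw [if_pos hc, if_pos ((hpat c).1 hc)]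
        · rw [if_neg hc, if_neg (fun h => hc ((hpat c).2 h))]
      simp only [e1]
      exact hmain
  · exact hA.elim
  · have e1 : eps V ρ E F (.inr (.inr u)) = 0 := rfl
    have e2 : taus V ρ E F R (.inr (.inr u)) = 0 := rfl
    simp only [e1, e2, sub_zero, one_mul]
    exact le_rfl

open Classical in
/-- The hypothesis on the tables. -/
theorem hypB {e s₀ : ℕ → ℕ} {R : ℕ → Rq} (h3 : T_BSX) (h4 : T_NOX) (h9 : T_NOY)
    (hS : Sep e s₀ W ρ R)
    {O : (∀ i : {a // a ∈ E}, Cx V W ρ i.1) → (List Bool → Bool) → List Bool → Bool}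
    (hO : IsY V W ρ E O) (ord : JJ E F → ℕ)
    (hk : ∀ i j, ord i ≤ ord j → kk V ρ E F R i ≤ kk V ρ E F R j) (j : JJ E F)
    (hA : ¬ AA E F j) (hC : ¬ CC E F j) (P : ∀ j, TT V W ρ E F Λ j) :
    (∀ i, ord i < ord j → ∀ p, ff V W ρ E F Λ R O (Function.update P j p) i =
      ff V W ρ E F Λ R O P i) ∧
    1 / 4 ≤ ∑ p, wx V W ρ E F Λ (ff V W ρ E F Λ R O (Function.update P j p) j) j p := by
  rcases j with ⟨i, hi⟩ | a | u
  · rcases i with p | a
    · exact absurd ⟨p, rfl⟩ hA
    · refine ⟨fun i hlt c => ?_, ?_⟩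
      · have e1 := PE_upd P ⟨.inr a, hi⟩ c
        have e2 := gP_upd P ⟨.inr a, hi⟩ c
        have hle := hk _ _ hlt.le
        rcases i with i | b | u
        · have hne : i.1 ≠ .inr a := by
            intro e
            have : i = ⟨.inr a, hi⟩ := Subtype.ext e
            rw [this] at hlt
            exact lt_irrefl _ hlt
          have := h4 V W ρ hS.rho E (fun Q => O Q (ex Λ (gP P))) (hO.isx _) (PE P) a hi i.1 hle hne c
          unfold ff
          rw [e1, e2]
          exact decide_eq_decide.2 this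
        · have := h9 e s₀ V W ρ R hS E O hO (ex Λ (gP P)) (PE P) a hi b.1 hle c
          unfold ff
          rw [e1, e2]
          exact decide_eq_decide.2 this
        · rfl
      · have := h3 V W ρ hS.rho E (fun Q => O Q (ex Λ (gP P))) (hO.isx _) (PE P) a hi
        refine this.trans (le_of_eq ?_)
        refine Finset.sum_congr rfl fun c _ => ?_
        have e1 := PE_upd P ⟨.inr a, hi⟩ c
        have e2 := gP_upd P ⟨.inr a, hi⟩ c
        have e3 : ff V W ρ E F Λ R O (Function.update P (.inl ⟨.inr a, hi⟩) c)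
            (.inl ⟨.inr a, hi⟩) = decide (ansr V W ρ (O (Function.update (PE P) ⟨.inr a, hi⟩ c)
              (ex Λ (gP P))) (.inr a)) := by
          unfold ff
          rw [e1, e2]
        by_cases hh : ansr V W ρ (O (Function.update (PE P) ⟨.inr a, hi⟩ c) (ex Λ (gP P))) (.inr a)
        · rw [if_pos hh, e3, decide_eq_true hh]
          rfl
        · rw [if_neg hh, e3, decide_eq_false hh]
          rfl
  · exact absurd trivial hC
  · exact absurd trivial hA

open Classical in
/-- The hypothesis on the requirements. -/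
theorem hypC {e s₀ : ℕ → ℕ} {R : ℕ → Rq} (h10 : T_UPB) (h8 : T_MAS) (hN : Num e s₀)
    (hS : Sep e s₀ W ρ R)
    {O : (∀ i : {a // a ∈ E}, Cx V W ρ i.1) → (List Bool → Bool) → List Bool → Bool}
    (hO : IsY V W ρ E O) (hΛ : ∀ a ∈ F, (R a).s ≤ Λ)
    (hB : ∀ p, Sum.inl p ∈ E → ∀ w, BPos V p w → w.length ≤ Λ) (ord : JJ E F → ℕ)
    (hk : ∀ i j, ord i ≤ ord j → kk V ρ E F R i ≤ kk V ρ E F R j) (j : JJ E F)
    (hC : CC E F j) :
    (∀ p, wx V W ρ E F Λ true j p = w0 V W ρ E F Λ j p) ∧ ∀ κ : JJ E F → Bool,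
    ∑ P : (∀ j, TT V W ρ E F Λ j), (∏ i, (if ord i < ord j then wx V W ρ E F Λ (κ i) i (P i)
      else w0 V W ρ E F Λ i (P i))) *
      (if ff V W ρ E F Λ R O P j = false then 1 else 0) ≤ taus V ρ E F R j := by
  rcases j with i | a | u
  · exact hC.elim
  · refine ⟨fun p => rfl, fun κ => ?_⟩
    let w : ∀ i : JJ E F, TT V W ρ E F Λ i → ℝ := fun i p =>
      if ord i < ord (.inr (.inl a)) then wx V W ρ E F Λ (κ i) i p else w0 V W ρ E F Λ i p
    let G : (∀ i : {a // a ∈ E}, Cx V W ρ i.1) → (St Λ → Bool) → ℝ := fun Q g =>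
      bi (decide (¬ (R a.1).ok (O Q (ex Λ g))))
    have hG : ∀ P, (if ff V W ρ E F Λ R O P (.inr (.inl a)) = false then (1 : ℝ) else 0) =
        G (PE P) (gP P) := by
      intro P
      by_cases h : (R a.1).ok (O (PE P) (ex Λ (gP P)))
      · have e1 : ff V W ρ E F Λ R O P (.inr (.inl a)) = true := decide_eq_true h
        rw [e1, if_neg (by simp)]
        simp only [G]
        rw [decide_eq_false (not_not.2 h)]
        rfl
      · have e1 : ff V W ρ E F Λ R O P (.inr (.inl a)) = false := decide_eq_false h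
        rw [e1, if_pos rfl]
        simp only [G]
        rw [decide_eq_true h]
        rfl
    have hG0 : ∀ Q g, 0 ≤ G Q g := by
      intro Q g
      simp only [G, bi]
      split_ifs
      · exact zero_le_one
      · exact le_rfl
    have hw0 : ∀ i p, 0 ≤ w i p := by
      intro i p
      simp only [w]
      split_ifs
      · exact wx_nonneg V W ρ E F Λ h8 _ _ _
      · exact w0_nonneg V W ρ E F Λ h8 _ _
    let Lo : Ix → Prop := fun i => ∃ h : i ∈ E, ord (.inl ⟨i, h⟩) < ord (.inr (.inl a))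
    let κ' : Ix → Bool := fun i => if h : i ∈ E then κ (.inl ⟨i, h⟩) else false
    have hu := h10 e s₀ hN V W ρ R hS E O hO a.1 Λ Lo κ' (hΛ a.1 a.2) hB
      (fun i hi hlo => hk _ _ hlo.2.le)
    have hwE : ∀ (i : {a // a ∈ E}) (c : Cx V W ρ i.1), w (.inl i) c =
        (if Lo i.1 then wgX V W ρ (κ' i.1) i.1 c else wg0 V W ρ i.1 c) := by
      intro i c
      simp only [w]
      by_cases h : ord (.inl i) < ord (.inr (.inl a))
      · rw [if_pos h, if_pos (show Lo i.1 from ⟨i.2, h⟩)]
        simp only [κ']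
        rw [dif_pos i.2]
        rfl
      · rw [if_neg h, if_neg (show ¬ Lo i.1 from fun h' => h h'.2)]
        rfl
    have hgd : ∀ g : St Λ → Bool, w (.inr (.inr ())) g = 1 / 2 ^ Fintype.card (St Λ) := by
      intro g
      simp only [w]
      split_ifs
      · rfl
      · rfl
    have hprod : ∏ a' : {a // a ∈ F}, w (.inr (.inl a')) () ≤ 1 := by
      refine Finset.prod_le_one (fun i _ => hw0 _ _) (fun i _ => ?_)
      simp only [w]
      split_ifs
      · change (if κ (.inr (.inl i)) then (1 : ℝ) else 0) ≤ 1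
        split_ifs
        · exact le_rfl
        · exact zero_le_one
      · exact le_rfl
    have h1 : ∑ P : (∀ j, TT V W ρ E F Λ j), (∏ i, w i (P i)) *
        (if ff V W ρ E F Λ R O P (.inr (.inl a)) = false then (1 : ℝ) else 0) =
        (∏ a' : {a // a ∈ F}, w (.inr (.inl a')) ()) *
        ∑ Q : (∀ i : {a // a ∈ E}, Cx V W ρ i.1), (∏ i, w (.inl i) (Q i)) *
          ∑ g : St Λ → Bool, w (.inr (.inr ())) g * G Q g := by
      rw [← sum_split w G]
      refine Finset.sum_congr rfl fun P _ => ?_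
      rw [hG]
    have h2 : ∑ Q : (∀ i : {a // a ∈ E}, Cx V W ρ i.1), (∏ i, w (.inl i) (Q i)) *
          ∑ g : St Λ → Bool, w (.inr (.inr ())) g * G Q g ≤ 1 / 2 ^ (2 * (R a.1).s) := by
      refine le_trans (le_of_eq ?_) hu
      refine Finset.sum_congr rfl fun Q _ => ?_
      congr 1
      · refine Finset.prod_congr rfl fun i _ => ?_
        rw [hwE i (Q i)]
        by_cases hl : Lo i.1
        · rw [if_pos hl, if_pos hl]
        · rw [if_neg hl, if_neg hl]
      · unfold mn
        rw [Finset.sum_div]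
        refine Finset.sum_congr rfl fun g _ => ?_
        rw [hgd]
        simp only [G]
        ring
    have h3 : 0 ≤ ∑ Q : (∀ i : {a // a ∈ E}, Cx V W ρ i.1), (∏ i, w (.inl i) (Q i)) *
          ∑ g : St Λ → Bool, w (.inr (.inr ())) g * G Q g :=
      Finset.sum_nonneg fun Q _ => mul_nonneg (Finset.prod_nonneg fun i _ => hw0 _ _)
        (Finset.sum_nonneg fun g _ => mul_nonneg (hw0 _ _) (hG0 _ _))
    change ∑ P : (∀ j, TT V W ρ E F Λ j), (∏ i, w i (P i)) *
        (if ff V W ρ E F Λ R O P (.inr (.inl a)) = false then (1 : ℝ) else 0) ≤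
        1 / 2 ^ (2 * (R a.1).s)
    rw [h1]
    exact (mul_le_of_le_one_left h3 hprod).trans h2
  · exact hC.elim

/-- The number of the coordinates of small size. -/
theorem card_small (R : ℕ → Rq) (ord : JJ E F → ℕ)
    (hk : ∀ i j, ord i ≤ ord j → kk V ρ E F R i ≤ kk V ρ E F R j) (j : JJ E F) :
    (univ.filter fun i => ord i ≤ ord j).card ≤
      (E.filter fun i => key V ρ i ≤ kk V ρ E F R j).card +
      (F.filter fun a => (R a).σ ≤ kk V ρ E F R j).card + 1 := by
  rw [Finset.card_filter, Fintype.sum_sum_type, Fintype.sum_sum_type, Finset.card_filter,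
    Finset.card_filter, ← Finset.sum_coe_sort E, ← Finset.sum_coe_sort F, ← add_assoc]
  refine Nat.add_le_add (Nat.add_le_add (Finset.sum_le_sum fun i _ => ?_)
    (Finset.sum_le_sum fun a _ => ?_)) ?_
  · by_cases h : ord (.inl i) ≤ ord j
    · have h' : key V ρ i.1 ≤ kk V ρ E F R j := hk _ _ h
      rw [if_pos h, if_pos h']
    · rw [if_neg h]
      exact Nat.zero_le _
  · by_cases h : ord (.inr (.inl a)) ≤ ord j
    · have h' : (R a.1).σ ≤ kk V ρ E F R j := hk _ _ h
      rw [if_pos h, if_pos h']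
    · rw [if_neg h]
      exact Nat.zero_le _
  · rw [Fintype.sum_unique]
    split_ifs
    · exact le_rfl
    · exact Nat.zero_le _

theorem pow_small (r : ℕ) (hr : 20 ≤ r) : 3 * r + 3 ≤ 2 ^ r := by
  obtain ⟨t, rfl⟩ : ∃ t, r = t + 2 := ⟨r - 2, by omega⟩
  have := Nat.lt_two_pow_self (n := t)
  rw [pow_succ, pow_succ]
  omega

/-- The number of coordinates of small size is small. -/
theorem pow_card {e s₀ : ℕ → ℕ} {R : ℕ → Rq} (h8 : Pool.Agent.H70.EI.T_CNT)
    (hS : Sep e s₀ W ρ R) (ord : JJ E F → ℕ)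
    (hk : ∀ i j, ord i ≤ ord j → kk V ρ E F R i ≤ kk V ρ E F R j) (j : JJ E F)
    (hj : 20 ≤ kk V ρ E F R j) :
    (8 : ℝ) ^ (univ.filter fun i => ord i ≤ ord j).card ≤ 2 ^ (2 * 2 ^ kk V ρ E F R j) := by
  have h1 := card_small R ord hk j
  have h2 := h8 V W ρ hS.rho E (kk V ρ E F R j) hj
  have h3 : (F.filter fun a => (R a).σ ≤ kk V ρ E F R j).card ≤ kk V ρ E F R j := by
    have : (F.filter fun a => (R a).σ ≤ kk V ρ E F R j) ⊆ Finset.range (kk V ρ E F R j) := by
      intro a ha
      have e1 := (Finset.mem_filter.1 ha).2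
      have e2 := hS.lo a
      have e3 := hS.rho.mono.le_apply (x := a)
      rw [Finset.mem_range]
      omega
    have e := Finset.card_le_card this
    rwa [Finset.card_range] at e
  have h4 := pow_small _ hj
  have h5 : (8 : ℝ) = 2 ^ 3 := by norm_num
  rw [h5, ← pow_mul]
  refine pow_le_pow_right₀ (by norm_num) ?_
  have h6 : (E.filter fun i => key V ρ i ≤ kk V ρ E F R j).card =
      (E.filter fun i => key V ρ i ≤ kk V ρ E F R j).card := rfl
  omega

/-- The sum of the errors. -/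
theorem hypS {e s₀ : ℕ → ℕ} {R : ℕ → Rq} (h6 : T_SUM) (h8 : Pool.Agent.H70.EI.T_CNT)
    (hN : Num e s₀) (hS : Sep e s₀ W ρ R) (ord : JJ E F → ℕ)
    (hk : ∀ i j, ord i ≤ ord j → kk V ρ E F R i ≤ kk V ρ E F R j) :
    ∑ j, (eps V ρ E F j + 8 ^ (univ.filter fun i => ord i ≤ ord j).card * taus V ρ E F R j) <
      1 := by
  classical
  rw [Fintype.sum_sum_type, Fintype.sum_sum_type]
  have hE : ∑ i : {a // a ∈ E}, (eps V ρ E F (.inl i) +
      8 ^ (univ.filter fun i' => ord i' ≤ ord (.inl i)).card * taus V ρ E F R (.inl i)) ≤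
      1 / 2 := by
    have hterm : ∀ i : {a // a ∈ E}, eps V ρ E F (.inl i) +
        8 ^ (univ.filter fun i' => ord i' ≤ ord (.inl i)).card * taus V ρ E F R (.inl i) ≤
        (match i.1 with
          | .inl p => (1 / 8 : ℝ) ^ key V ρ (.inl p)
          | .inr _ => 0) / 2 := by
      rintro ⟨i, hi⟩
      rcases i with p | a
      · have hr : 20 ≤ key V ρ (.inl p) := key_pos (.inl p) hS.rho
        have h8' := pow_card h8 hS ord hk (.inl ⟨.inl p, hi⟩) hr
        have e0 : kk V ρ E F R (.inl ⟨.inl p, hi⟩) = key V ρ (.inl p) := rfl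
        rw [e0] at h8'
        have hta := ta2_nonneg V ρ (.inl p)
        have hc := mul_le_mul_of_nonneg_right h8' hta
        have hd : (2 : ℝ) ^ (2 * 2 ^ key V ρ (.inl p)) * ta2 V ρ (.inl p) =
            (1 / 8) ^ key V ρ (.inl p) / 4 := by
          simp only [ta2]
          generalize key V ρ (.inl p) = k
          have : (0 : ℝ) < 2 ^ (2 * 2 ^ k) := by positivity
          field_simp
        change (1 / 8) ^ key V ρ (.inl p) / 4 +
          8 ^ (univ.filter fun i' => ord i' ≤ ord (.inl ⟨.inl p, hi⟩)).card *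
          ta2 V ρ (.inl p) ≤ (1 / 8 : ℝ) ^ key V ρ (.inl p) / 2
        linarith
      · change (0 : ℝ) + 8 ^ (univ.filter fun i' => ord i' ≤ ord (.inl ⟨.inr a, hi⟩)).card * 0 ≤
          0 / 2
        simp
    have hgeo := h6 V W ρ hS.rho E
    calc ∑ i : {a // a ∈ E}, (eps V ρ E F (.inl i) +
          8 ^ (univ.filter fun i' => ord i' ≤ ord (.inl i)).card * taus V ρ E F R (.inl i))
        ≤ ∑ i : {a // a ∈ E}, (match i.1 with
          | .inl p => (1 / 8 : ℝ) ^ key V ρ (.inl p)
          | .inr _ => 0) / 2 := Finset.sum_le_sum fun i _ => hterm i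
      _ = (∑ i : {a // a ∈ E}, (match i.1 with
          | .inl p => (1 / 8 : ℝ) ^ key V ρ (.inl p)
          | .inr _ => 0)) / 2 := by rw [Finset.sum_div]
      _ = (∑ i ∈ E, (match i with
          | .inl p => (1 / 8 : ℝ) ^ key V ρ (.inl p)
          | .inr _ => 0)) / 2 := by
            congr 1
            exact Finset.sum_coe_sort E (fun i : Ix => (match i with
              | .inl p => (1 / 8 : ℝ) ^ key V ρ (.inl p)
              | .inr _ => 0))
      _ ≤ 1 / 2 := div_le_div_of_nonneg_right hgeo (by norm_num)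
  have hF : ∑ a : {a // a ∈ F}, (eps V ρ E F (.inr (.inl a)) +
      8 ^ (univ.filter fun i' => ord i' ≤ ord (.inr (.inl a))).card *
        taus V ρ E F R (.inr (.inl a))) ≤ 1 / 14 := by
    have hterm : ∀ a : {a // a ∈ F}, eps V ρ E F (.inr (.inl a)) +
        8 ^ (univ.filter fun i' => ord i' ≤ ord (.inr (.inl a))).card *
          taus V ρ E F R (.inr (.inl a)) ≤ (1 / 8 : ℝ) ^ a.1 / 16 := by
      rintro ⟨a, ha⟩
      have hσ : 20 ≤ (R a).σ := by
        have := hS.s1 a
        omega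
      have h8' := pow_card h8 hS ord hk (.inr (.inl ⟨a, ha⟩)) hσ
      have e0 : kk V ρ E F R (.inr (.inl ⟨a, ha⟩)) = (R a).σ := rfl
      rw [e0] at h8'
      have hn := ((hN (R a).k (R a).s (hS.big a)).2.2.1 (R a).σ (hS.s3 a)).2
      have ha' : a ≤ (R a).σ := by
        have e2 := hS.lo a
        have e3 := hS.rho.mono.le_apply (x := a)
        omega
      have h1 : (2 : ℝ) ^ (2 * 2 ^ (R a).σ) * (2 ^ (3 * a) * 16) ≤ 2 ^ (2 * (R a).s) := by
        have : (2 : ℝ) ^ (2 * 2 ^ (R a).σ) * (2 ^ (3 * a) * 16) =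
            2 ^ (2 * 2 ^ (R a).σ + (3 * a + 4)) := by
          rw [pow_add, pow_add]
          norm_num
        rw [this]
        exact pow_le_pow_right₀ (by norm_num) (by omega)
      change (0 : ℝ) + 8 ^ (univ.filter fun i' => ord i' ≤ ord (.inr (.inl ⟨a, ha⟩))).card *
        (1 / 2 ^ (2 * (R a).s)) ≤ (1 / 8 : ℝ) ^ a / 16
      rw [zero_add]
      have h2 : (0 : ℝ) < 2 ^ (2 * (R a).s) := by positivity
      refine le_trans (mul_le_mul_of_nonneg_right h8' (by positivity)) ?_
      rw [mul_one_div, div_le_iff₀ h2]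
      have h3 : (1 / 8 : ℝ) ^ a / 16 = 1 / (2 ^ (3 * a) * 16) := by
        rw [pow_mul, one_div_pow]
        norm_num
        ring
      rw [h3, one_div, inv_mul_eq_div, le_div_iff₀ (by positivity)]
      exact h1
    calc ∑ a : {a // a ∈ F}, (eps V ρ E F (.inr (.inl a)) +
          8 ^ (univ.filter fun i' => ord i' ≤ ord (.inr (.inl a))).card *
            taus V ρ E F R (.inr (.inl a)))
        ≤ ∑ a : {a // a ∈ F}, (1 / 8 : ℝ) ^ a.1 / 16 := Finset.sum_le_sum fun a _ => hterm a
      _ = ∑ a ∈ F, (1 / 8 : ℝ) ^ a / 16 :=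
          Finset.sum_coe_sort F (fun a => (1 / 8 : ℝ) ^ a / 16)
      _ = (∑ a ∈ F, (1 / 8 : ℝ) ^ a) / 16 := by rw [Finset.sum_div]
      _ ≤ (∑' a : ℕ, (1 / 8 : ℝ) ^ a) / 16 := by
          refine div_le_div_of_nonneg_right ?_ (by norm_num)
          exact (summable_geometric_of_lt_one (by norm_num) (by norm_num)).sum_le_tsum _
            fun a _ => by positivity
      _ ≤ 1 / 14 := by
          rw [tsum_geometric_of_lt_one (by norm_num) (by norm_num)]
          norm_num
  have hD : ∑ u : Unit, (eps V ρ E F (.inr (.inr u)) +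
      8 ^ (univ.filter fun i' => ord i' ≤ ord (.inr (.inr u))).card *
        taus V ρ E F R (.inr (.inr u))) = 0 := by
    refine Finset.sum_eq_zero fun u _ => ?_
    change (0 : ℝ) + 8 ^ (univ.filter fun i' => ord i' ≤ ord (.inr (.inr u))).card * 0 = 0
    simp
  rw [hD]
  linarith

/-- The lengths of the positions of finitely many blocks are bounded. -/
theorem len_bound (V : ℕ → ATM) (E : Finset Ix) : ∃ Λ : ℕ, ∀ p, Sum.inl p ∈ E →
    ∀ w, BPos V p w → w.length ≤ Λ := by
  classical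
  have h1 : ∀ p : ℕ × List Bool, ∃ m : ℕ, ∀ w, BPos V p w → w.length ≤ m := by
    intro p
    have hfin : {w | BPos V p w}.Finite := by
      have : {w | BPos V p w} ⊆ Set.range (fun a : (Fin (2 * (hm V p).length) → Bool) ×
          (Fin (qs (hm V p)) → Bool) × Bool =>
            pos (hm V p) (List.ofFn a.1) (List.ofFn a.2.1) a.2.2) ∪
          Set.range (fun z : Fin (wln (hm V p)) → Bool => wps (hm V p) (List.ofFn z)) := by
        rintro w (⟨u, v, b, rfl⟩ | ⟨z, rfl⟩)
        · exact Or.inl ⟨(u, v, b), rfl⟩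
        · exact Or.inr ⟨z, rfl⟩
      exact ((Set.finite_range _).union (Set.finite_range _)).subset this
    refine ⟨hfin.toFinset.sup List.length, fun w hw => ?_⟩
    exact Finset.le_sup (f := List.length) (hfin.mem_toFinset.2 hw)
  choose m hm' using h1
  refine ⟨E.sup fun i => match i with
    | .inl p => m p
    | .inr _ => 0, fun p hp w hw => ?_⟩
  refine (hm' p w hw).trans ?_
  exact Finset.le_sup (f := fun i : Ix => match i with
    | .inl p => m p
    | .inr _ => 0) hp

theorem pf_EX4 (h1 : T_FX4) (h2 : T_ASY) (h3 : Pool.Agent.H78.XQ.T_BSX)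
    (h4 : Pool.Agent.H78.XQ.T_NOX) (h5 : T_ISY) (h6 : Pool.Agent.H78.XQ.T_SUM)
    (h7 : Pool.Agent.H78.XQ.T_MAS) (h8 : Pool.Agent.H70.EI.T_CNT) (h9 : T_NOY) (h10 : T_UPB)
    (_h11 : Pool.Agent.H6.NB.T_COD) : T_EX4 := by
  classical
  intro e s₀ hN V W ρ R hS E F
  obtain ⟨O, hO⟩ := h5 V W ρ hS.rho E
  obtain ⟨Λ₀, hΛ₀⟩ := len_bound V E
  obtain ⟨Λ, hB, hΛ⟩ : ∃ Λ : ℕ, (∀ p, Sum.inl p ∈ E → ∀ w, BPos V p w → w.length ≤ Λ) ∧
      ∀ a ∈ F, (R a).s ≤ Λ := by
    refine ⟨max Λ₀ (F.sup fun a => (R a).s), fun p hp w hw => ?_, fun a ha => ?_⟩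
    · exact (hΛ₀ p hp w hw).trans (le_max_left _ _)
    · exact (Finset.le_sup (f := fun a => (R a).s) ha).trans (le_max_right _ _)
  obtain ⟨ord, hord, hk⟩ := ord_exists (JJ E F) (kk V ρ E F R)
  obtain ⟨P, hP⟩ := h1 (JJ E F) (TT V W ρ E F Λ) ord (w0 V W ρ E F Λ) (wx V W ρ E F Λ)
    (ff V W ρ E F Λ R O) (AA E F) (CC E F) (eps V ρ E F) (taus V ρ E F R) hord
    (fun j p => w0_nonneg V W ρ E F Λ h7 j p) (fun j => w0_sum V W ρ E F Λ h7 j)
    (fun b j p => wx_nonneg V W ρ E F Λ h7 b j p) (fun b j => wx_sum V W ρ E F Λ h7 b j)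
    (fun j => eps_nonneg V ρ E F j) (fun j => taus_nonneg V ρ E F R j)
    (fun j hA κ P => by
      have := hypA h2 hS hO ord hk j hA κ P
      convert this)
    (fun j hA hC P => by
      have := hypB h3 h4 h9 hS hO ord hk j hA hC P
      convert this)
    (fun j _ hC => by
      have := hypC h10 h7 hN hS hO hΛ hB ord hk j hC
      convert this)
    (by
      have := hypS h6 h8 hN hS ord hk
      convert this)
  refine ⟨O (PE P) (ex Λ (gP P)), fun i hi => ?_, fun a ha => ?_⟩
  · have hPi := hP (.inl ⟨i, hi⟩)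
    rcases i with p | a
    · have hPi' : 0 < mB (qs (hm V p)) (hm V p).length (rns (hm V p)) (wln (hm V p))
          (decide (p.2 ∈ (V p.1).lang (O (PE P) (ex Λ (gP P)))))
          (PE P ⟨.inl p, hi⟩ : CP V p) := hPi
      have hok : OkB (qs (hm V p)) (hm V p).length (rns (hm V p)) (wln (hm V p))
          (decide (p.2 ∈ (V p.1).lang (O (PE P) (ex Λ (gP P)))))
          (PE P ⟨.inl p, hi⟩ : CP V p) := by
        by_contra hno
        unfold mB at hPi'
        rw [if_neg hno] at hPi'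
        exact lt_irrefl _ hPi'
      have hb := (hO.isx (ex Λ (gP P))).blk (PE P) p hi
      have hc := (hO.isx (ex Λ (gP P))).cor (PE P) p hi
      have hgoal : OkB (qs (hm V p)) (hm V p).length (rns (hm V p)) (wln (hm V p))
          (decide (p.2 ∈ (V p.1).lang (O (PE P) (ex Λ (gP P)))))
          (cps (O (PE P) (ex Λ (gP P))) (hm V p), cst (O (PE P) (ex Λ (gP P))) (hm V p)) := by
        rw [hb, hc]
        exact hok
      unfold goodX
      convert hgoal
    · have hPi' : 0 < (if decide (ansr V W ρ (O (PE P) (ex Λ (gP P))) (.inr a)) = true then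
          (1 : ℝ) / Fintype.card (Ct V W ρ (.inr a)) else 0) := hPi
      change ansr V W ρ (O (PE P) (ex Λ (gP P))) (.inr a)
      by_contra hno
      rw [if_neg (fun e => hno (of_decide_eq_true e))] at hPi'
      exact lt_irrefl _ hPi'
  · have hPi := hP (.inr (.inl ⟨a, ha⟩))
    by_contra hno
    have e1 : ff V W ρ E F Λ R O P (.inr (.inl ⟨a, ha⟩)) = false := decide_eq_false hno
    rw [e1] at hPi
    have : (0 : ℝ) < 0 := hPi
    exact lt_irrefl _ this

end

end Pool.Agent.H62.OMN
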