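import Pool.Agent.H75.OM.TD
import Pool.Agent.H78.XQ.FX3

/-!
# FX4: the answers can be written into the oracle, and the requirements can be satisfied
-/

set_option autoImplicit false

namespace Pool.Agent.H62.OMN

open Finset Pool.Agent.H75.OM Pool.Agent.H78.XQ.FX3

section

variable {I : Type} [Fintype I] [DecidableEq I] {T : I → Type} [∀ j, Fintype (T j)]

omit [Fintype I] [DecidableEq I] [∀ j, Fintype (T j)] in
theorem zw_nonneg (ord : I → ℕ) (m₀ : ∀ j, T j → ℝ) (m : Bool → ∀ j, T j → ℝ)
    (f : (∀ j, T j) → I → Bool) (hn0 : ∀ j p, 0 ≤ m₀ j p) (hm0 : ∀ b j p, 0 ≤ m b j p)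
    (k : ℕ) (P : ∀ j, T j) (i : I) : 0 ≤ zw ord m₀ m f k P i := by
  unfold zw
  split_ifs
  · exact hm0 _ _ _
  · exact hn0 _ _

open Classical in
/-- The step of a requirement. -/
theorem stepC (ord : I → ℕ) (hord : Function.Injective ord) (m₀ : ∀ j, T j → ℝ)
    (m : Bool → ∀ j, T j → ℝ) (f : (∀ j, T j) → I → Bool) (hn0 : ∀ j p, 0 ≤ m₀ j p)
    (hm0 : ∀ b j p, 0 ≤ m b j p) (j : I) (τ : ℝ) (hmt : ∀ p, m true j p = m₀ j p)
    (hyp : ∀ κ : I → Bool,
      ∑ P : (∀ j, T j), (∏ i, (if ord i < ord j then m (κ i) i (P i) else m₀ i (P i))) *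
        (if f P j = false then 1 else 0) ≤ τ) :
    (∑ P : (∀ j, T j), ∏ i, zw ord m₀ m f (ord j) P i) -
      2 ^ (univ.filter fun i => ord i ≤ ord j).card * τ ≤
    ∑ P : (∀ j, T j), ∏ i, zw ord m₀ m f (ord j + 1) P i := by
  let N := {i : I // i ∈ (univ.filter fun i => ord i ≤ ord j)}
  let iN : Fintype N := Finset.Subtype.fintype _
  let ext : (N → Bool) → I → Bool := fun κ i =>
    if h : i ∈ (univ.filter fun i => ord i ≤ ord j) then κ ⟨i, h⟩ else false
  let v : (I → Bool) → ∀ i, T i → ℝ := fun κ i p =>
    if ord i < ord j then m (κ i) i p else m₀ i p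
  have hv0 : ∀ κ i p, 0 ≤ v κ i p := by
    intro κ i p
    simp only [v]
    split_ifs
    · exact hm0 _ _ _
    · exact hn0 _ _
  have hcN : (Fintype.card (N → Bool) : ℝ) = 2 ^ (univ.filter fun i => ord i ≤ ord j).card := by
    have e : Fintype.card N = (univ.filter fun i => ord i ≤ ord j).card := Fintype.card_coe _
    rw [Fintype.card_fun, Fintype.card_bool, e]
    push_cast
    rfl
  have h1 : ∀ P : (∀ j, T j), ∏ i, zw ord m₀ m f (ord j) P i ≤
      ∑ κ : N → Bool, ∏ i, v (ext κ) i (P i) := by
    intro P
    have e : ∏ i, zw ord m₀ m f (ord j) P i = ∏ i, v (ext fun a : N => f P a.1) i (P i) := by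
      refine Finset.prod_congr rfl fun i _ => ?_
      simp only [zw, v]
      by_cases hi : ord i < ord j
      · have hmem : i ∈ (univ.filter fun i => ord i ≤ ord j) := by simpa using hi.le
        rw [if_pos hi, if_pos hi]
        simp only [ext]
        rw [dif_pos hmem]
      · rw [if_neg hi, if_neg hi]
    rw [e]
    exact Finset.single_le_sum (f := fun κ : N → Bool => ∏ i, v (ext κ) i (P i))
      (fun κ _ => Finset.prod_nonneg fun i _ => hv0 _ _ _) (mem_univ (fun a : N => f P a.1))
  have h2 : ∑ P : (∀ j, T j), (∏ i, zw ord m₀ m f (ord j) P i) *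
      (if f P j = false then 1 else 0) ≤
      2 ^ (univ.filter fun i => ord i ≤ ord j).card * τ := by
    calc ∑ P : (∀ j, T j), (∏ i, zw ord m₀ m f (ord j) P i) * (if f P j = false then 1 else 0)
        ≤ ∑ P : (∀ j, T j), (∑ κ : N → Bool, ∏ i, v (ext κ) i (P i)) *
          (if f P j = false then 1 else 0) := by
          refine Finset.sum_le_sum fun P _ => mul_le_mul_of_nonneg_right (h1 P) ?_
          split_ifs
          · exact zero_le_one
          · exact le_rfl
      _ = ∑ κ : N → Bool, ∑ P : (∀ j, T j), (∏ i, v (ext κ) i (P i)) *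
          (if f P j = false then 1 else 0) := by
          rw [Finset.sum_comm]
          refine Finset.sum_congr rfl fun P _ => ?_
          rw [Finset.sum_mul]
      _ ≤ 2 ^ (univ.filter fun i => ord i ≤ ord j).card * τ := by
          refine le_trans (Finset.sum_le_card_nsmul _ _ τ fun κ _ => hyp (ext κ)) ?_
          rw [nsmul_eq_mul, Finset.card_univ, hcN]
  have h3 : ∀ P : (∀ j, T j), (∏ i, zw ord m₀ m f (ord j) P i) -
      (∏ i, zw ord m₀ m f (ord j) P i) * (if f P j = false then 1 else 0) ≤
      ∏ i, zw ord m₀ m f (ord j + 1) P i := by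
    intro P
    by_cases hf : f P j = false
    · rw [if_pos hf, mul_one, sub_self]
      exact Finset.prod_nonneg fun i _ => zw_nonneg ord m₀ m f hn0 hm0 _ _ _
    · rw [if_neg hf, mul_zero, sub_zero]
      have hf' : f P j = true := by simpa using hf
      refine le_of_eq (Finset.prod_congr rfl fun i _ => ?_)
      unfold zw
      by_cases hi : ord i < ord j
      · rw [if_pos hi, if_pos (by omega)]
      · rw [if_neg hi]
        by_cases hij : i = j
        · subst hij
          rw [if_pos (by omega), hf', hmt]
        · have : ord i ≠ ord j := fun e => hij (hord e)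
          rw [if_neg (by omega)]
  have h4 := Finset.sum_le_sum fun P (_ : P ∈ (univ : Finset (∀ j, T j))) => h3 P
  rw [Finset.sum_sub_distrib] at h4
  linarith

end

theorem pf_FX4 : T_FX4 := by
  classical
  intro I _ _ T _ ord m₀ m f A C ε τ hord hn0 hn1 hm0 hm1 hε hτ hA hB hC hsum
  let N : I → ℕ := fun j => (univ.filter fun i => ord i ≤ ord j).card
  let Z : ℕ → ℝ := fun k => ∑ P : (∀ j, T j), ∏ i, zw ord m₀ m f k P i
  let L : ℕ → ℝ := fun k => 1 - ∑ j ∈ univ.filter (fun j => ord j < k), (ε j + 8 ^ N j * τ j)
  let B : ℕ → ℕ := fun k => (univ.filter fun j => ord j < k).card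
  have hc0 : ∀ j, 0 ≤ ε j + 8 ^ N j * τ j := by
    intro j
    have h1 := hε j
    have h2 := hτ j
    positivity
  have hL0 : ∀ k, 0 < L k := by
    intro k
    have : ∑ j ∈ univ.filter (fun j => ord j < k), (ε j + 8 ^ N j * τ j) ≤
        ∑ j, (ε j + 8 ^ N j * τ j) :=
      Finset.sum_le_sum_of_subset_of_nonneg (Finset.filter_subset _ _) fun j _ _ => hc0 j
    simp only [L]
    linarith
  have hmain : ∀ k, (1 / 4) ^ B k * L k ≤ Z k := by
    intro k
    induction k with
    | zero =>
      have h1 : ∀ P : (∀ j, T j), ∏ i, zw ord m₀ m f 0 P i = ∏ i, m₀ i (P i) := by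
        intro P
        refine Finset.prod_congr rfl fun i _ => ?_
        unfold zw
        rw [if_neg (Nat.not_lt_zero _)]
      have h2 : Z 0 = 1 := by
        simp only [Z]
        rw [Finset.sum_congr rfl fun P _ => h1 P, prod_sum_pi (fun i p => m₀ i p)]
        rw [Finset.prod_congr rfl fun i _ => hn1 i, Finset.prod_const_one]
      rw [h2]
      simp [L, B]
    | succ k ih =>
      by_cases hk : ∃ j, ord j = k
      · obtain ⟨j, hj⟩ := hk
        have hins : univ.filter (fun i => ord i < k + 1) =
            insert j (univ.filter (fun i => ord i < k)) := by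
          ext i
          simp only [mem_filter, mem_univ, true_and, mem_insert]
          constructor
          · intro h
            by_cases h' : ord i = k
            · exact Or.inl (hord (h'.trans hj.symm))
            · exact Or.inr (by omega)
          · rintro (h | h)
            · rw [h, hj]; omega
            · omega
        have hnot : j ∉ univ.filter (fun i => ord i < k) := by
          simp [hj]
        have hBk : B (k + 1) = B k + 1 := by
          simp only [B]
          rw [hins, Finset.card_insert_of_notMem hnot]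
        have hLk : L (k + 1) = L k - (ε j + 8 ^ N j * τ j) := by
          simp only [L]
          rw [hins, Finset.sum_insert hnot]
          ring
        have hNj : N j = B k + 1 := by
          have : (univ.filter fun i => ord i ≤ ord j) = univ.filter (fun i => ord i < k + 1) := by
            ext i
            simp only [mem_filter, mem_univ, true_and, hj]
            omega
          simp only [N]
          rw [this]
          exact hBk
        have hLpos := hL0 (k + 1)
        have hLk1 : L k ≤ 1 := by
          simp only [L]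
          have : 0 ≤ ∑ j ∈ univ.filter (fun j => ord j < k), (ε j + 8 ^ N j * τ j) :=
            Finset.sum_nonneg fun j _ => hc0 j
          linarith
        have hstep : (1 - ε j) * Z k - 2 ^ N j * τ j ≤ Z (k + 1) → (1 / 4) ^ B (k + 1) *
            L (k + 1) ≤ Z (k + 1) := by
          intro h1'
          have h2 : ε j ≤ 1 := by
            have h3 : 0 ≤ 8 ^ N j * τ j := mul_nonneg (by positivity) (hτ j)
            rw [hLk] at hLpos
            linarith
          have h3 : (1 - ε j) * ((1 / 4) ^ B k * L k) ≤ (1 - ε j) * Z k :=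
            mul_le_mul_of_nonneg_left ih (by linarith)
          have h4 : (1 / 4 : ℝ) ^ B k * 8 ^ N j = 2 * 2 ^ N j * 2 ^ 1 * 1 := by
            rw [hNj]
            have : (8 : ℝ) = 4 * 2 := by norm_num
            rw [this, mul_pow, pow_succ 4 (B k), pow_succ (2 : ℝ) (B k)]
            have h5 : (1 / 4 : ℝ) ^ B k * 4 ^ B k = 1 := by
              rw [← mul_pow]; norm_num
            calc (1 / 4 : ℝ) ^ B k * (4 ^ B k * 4 * (2 ^ B k * 2))
                = ((1 / 4 : ℝ) ^ B k * 4 ^ B k) * (4 * (2 ^ B k * 2)) := by ring
              _ = 2 * (2 ^ B k * 2) * 2 ^ 1 * 1 := by rw [h5]; ring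
          have h6 : 2 ^ N j * τ j ≤ (1 / 4 : ℝ) ^ B k * (8 ^ N j * τ j) := by
            rw [← mul_assoc, h4]
            have := mul_nonneg (pow_nonneg (by norm_num : (0 : ℝ) ≤ 2) (N j)) (hτ j)
            nlinarith
          have h7 : (1 / 4 : ℝ) ^ B k * L (k + 1) ≤ Z (k + 1) := by
            refine le_trans ?_ h1'
            refine le_trans ?_ (sub_le_sub_right h3 _)
            rw [hLk]
            have h8 : 0 ≤ (1 / 4 : ℝ) ^ B k * (ε j * (1 - L k)) :=
              mul_nonneg (by positivity) (mul_nonneg (hε j) (by linarith))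
            nlinarith
          rw [hBk, pow_succ]
          have h9 : 0 ≤ (1 / 4 : ℝ) ^ B k * L (k + 1) := mul_nonneg (by positivity) hLpos.le
          calc (1 / 4 : ℝ) ^ B k * (1 / 4) * L (k + 1) = (1 / 4) * ((1 / 4 : ℝ) ^ B k * L (k + 1)) := by
                ring
            _ ≤ (1 / 4 : ℝ) ^ B k * L (k + 1) := by linarith
            _ ≤ Z (k + 1) := h7
        by_cases hAj : A j
        · refine hstep ?_
          have h1 := stepA ord hord m₀ m f hn0 hn1 hm0 hm1 j (ε j) (τ j) (hτ j) (hA j hAj)
          rw [hj] at h1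
          have e : (univ.filter fun i => ord i ≤ k).card = N j := by
            simp only [N, hj]
          rw [e] at h1
          exact h1
        by_cases hCj : C j
        · refine hstep ?_
          have h1 := stepC ord hord m₀ m f hn0 hm0 j (τ j) (hC j hAj hCj).1 (hC j hAj hCj).2
          rw [hj] at h1
          have e : (univ.filter fun i => ord i ≤ k).card = N j := by
            simp only [N, hj]
          rw [e] at h1
          have hZ0 : 0 ≤ Z k := Finset.sum_nonneg fun P _ => Finset.prod_nonneg fun i _ =>
            zw_nonneg ord m₀ m f hn0 hm0 _ _ _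
          have h2 : 0 ≤ ε j * Z k := mul_nonneg (hε j) hZ0
          have h3 : Z k - 2 ^ N j * τ j ≤ Z (k + 1) := h1
          linarith
        · have h1 := stepB ord hord m₀ m f hn0 hn1 hm0 j (hB j hAj hCj)
          have h1' : 1 / 4 * Z k ≤ Z (k + 1) := by
            rw [hj] at h1
            exact h1
          refine le_trans ?_ h1'
          rw [hBk, pow_succ]
          have h2 : (1 / 4 : ℝ) ^ B k * L (k + 1) ≤ (1 / 4 : ℝ) ^ B k * L k := by
            refine mul_le_mul_of_nonneg_left ?_ (by positivity)
            rw [hLk]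
            linarith [hc0 j]
          nlinarith
      · have hset : univ.filter (fun i => ord i < k + 1) = univ.filter (fun i => ord i < k) := by
          ext i
          simp only [mem_filter, mem_univ, true_and]
          have : ord i ≠ k := fun h => hk ⟨i, h⟩
          omega
        have hZ : Z (k + 1) = Z k := by
          simp only [Z]
          refine Finset.sum_congr rfl fun P _ => Finset.prod_congr rfl fun i _ => ?_
          unfold zw
          have : ord i ≠ k := fun h => hk ⟨i, h⟩
          by_cases h : ord i < k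
          · rw [if_pos h, if_pos (by omega)]
          · rw [if_neg h, if_neg (by omega)]
        simp only [B, L]
        rw [hset, hZ]
        exact ih
  obtain ⟨K, hK⟩ : ∃ K, ∀ i, ord i < K :=
    ⟨univ.sup ord + 1, fun i => Nat.lt_succ_of_le (Finset.le_sup (mem_univ i))⟩
  have hZK : 0 < Z K := lt_of_lt_of_le (mul_pos (by positivity) (hL0 K)) (hmain K)
  by_contra hno
  have hno' : ∀ P : (∀ j, T j), ∃ j, m (f P j) j (P j) = 0 := by
    intro P
    by_contra h
    refine hno ⟨P, fun j => ?_⟩
    rcases (hm0 (f P j) j (P j)).lt_or_eq with h' | h'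
    · exact h'
    · exact absurd ⟨j, h'.symm⟩ h
  have : Z K = 0 := by
    simp only [Z]
    refine Finset.sum_eq_zero fun P _ => ?_
    obtain ⟨j, hj⟩ := hno' P
    refine Finset.prod_eq_zero (mem_univ j) ?_
    unfold zw
    rw [if_pos (hK j), hj]
  linarith

end Pool.Agent.H62.OMN
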